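import Pool.Agent.Lib_MP_b5064f_t3.Final

set_option autoImplicit false

/-!
# The complexity of TREE t-SPANNER on path graphs, for every fixed t at least 3

TREE 3-SPANNER is solvable in polynomial time on path graphs, and even on all chordal graphs: the
set of the codes of the chordal graphs which have a tree 3-spanner belongs to P, and path graphs
are chordal. For every `t ≥ 4`, TREE `t`-SPANNER restricted to path graphs is NP-complete. Hence,
for every `t ≥ 3`, there is a polynomial time algorithm for path graphs iff `t = 3` or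
`NP ⊆ P`.
-/

namespace Pool.Agent.Results.MP_b5064f_lc.Classification

open Pool.Agent.PartSep Pool.Agent.PartSep.TM Pool.Agent.PartSep.TM.Rep Pool.Agent.PartSep.CL
open Pool.Agent.Spanner N487b59b3
open Pool.Agent.Spanner3

/-- Composition of a polynomial time reduction and a polynomial time decision procedure. -/
theorem comp_mem_P {A : List Bool → Bool} {f : List Bool → List Bool}
    (hA : A ∈ N68a2faeb.P) (hf : N68a2faeb.IsPolyTime f) :
    (fun x => A (f x)) ∈ N68a2faeb.P := by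
  obtain ⟨g, hg, hgf⟩ := FP.ofTM2 hf
  obtain ⟨g', hg', hgA⟩ := FP.ofTM2 hA
  refine mem_P_of_fp (g := fun s => g' (g s)) (FP.comp hg' hg) (fun x => ?_)
  have h1 : g ((bitEncode x).map bs) = (bitEncode (f x)).map bs := hgf x
  have h2 : g' ((bitEncode (f x)).map bs) = (bitEncode (A (f x))).map bs := hgA (f x)
  rw [h1, h2]
  rfl

/-- The classification of the complexity of TREE `t`-SPANNER on path graphs. -/
theorem result :
    (chordalTreeSpanner 3 ∈ N68a2faeb.P ∧
      ∀ (n : ℕ) (G : SimpleGraph (Fin n)), IsPathGraph G → IsChordal G ∧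
        (chordalTreeSpanner 3 (graphCode G) = true ↔ HasTreeSpanner G 3)) ∧
    (∀ t : ℕ, 4 ≤ t → treeSpanner t ∈ N68a2faeb.NP ∧
      ∀ A ∈ N68a2faeb.NP, ∃ f : List Bool → List Bool, N68a2faeb.IsPolyTime f ∧
        ∀ x, ∃ (n : ℕ) (G : SimpleGraph (Fin n)), f x = graphCode G ∧ G.Connected ∧
          IsPathGraph G ∧ (A x = true ↔ HasTreeSpanner G t) ∧ A x = treeSpanner t (f x)) ∧
    (∀ t : ℕ, 3 ≤ t →
      ((∃ A ∈ N68a2faeb.P, ∀ (n : ℕ) (G : SimpleGraph (Fin n)), G.Connected → IsPathGraph G →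
        (A (graphCode G) = true ↔ HasTreeSpanner G t)) ↔
      (t = 3 ∨ N68a2faeb.NP ⊆ N68a2faeb.P))) := by
  have h3 : ∀ (n : ℕ) (G : SimpleGraph (Fin n)), IsPathGraph G → IsChordal G ∧
        (chordalTreeSpanner 3 (graphCode G) = true ↔ HasTreeSpanner G 3) := by
    intro n G h
    obtain ⟨r, hr⟩ := path_peo h
    exact ⟨peo_chordal hr, chordalTreeSpanner_graphCode (peo_chordal hr)⟩
  have h4 : ∀ t : ℕ, 4 ≤ t → treeSpanner t ∈ N68a2faeb.NP ∧
      ∀ A ∈ N68a2faeb.NP, ∃ f : List Bool → List Bool, N68a2faeb.IsPolyTime f ∧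
        ∀ x, ∃ (n : ℕ) (G : SimpleGraph (Fin n)), f x = graphCode G ∧ G.Connected ∧
          IsPathGraph G ∧ (A x = true ↔ HasTreeSpanner G t) ∧ A x = treeSpanner t (f x) := by
    intro t ht
    refine ⟨treeSpanner_mem_NP t, fun A hA => ?_⟩
    obtain ⟨f, hf, h⟩ := hardness ht hA
    refine ⟨f, hf, fun x => ?_⟩
    obtain ⟨n, G, h1, h2, h3, h4⟩ := h x
    refine ⟨n, G, h1, h2, h3, h4, ?_⟩
    rw [Bool.eq_iff_iff, h4, h1, treeSpanner_graphCode]
  refine ⟨⟨chordalTreeSpanner_mem_P, h3⟩, h4, fun t ht => ⟨?_, ?_⟩⟩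
  · rintro ⟨A, hA, hAG⟩
    rcases Nat.lt_or_ge 3 t with h | h
    · right
      intro L hL
      obtain ⟨f, hf, hfL⟩ := (h4 t h).2 L hL
      have e : L = fun x => A (f x) := by
        funext x
        obtain ⟨n, G, h1, h2, h3, h4, _⟩ := hfL x
        rw [Bool.eq_iff_iff, h4, h1, hAG n G h2 h3]
      rw [e]
      exact comp_mem_P hA hf
    · left; omega
  · rintro (rfl | h)
    · exact ⟨_, chordalTreeSpanner_mem_P, fun n G _ hp => (h3 n G hp).2⟩
    · exact ⟨treeSpanner t, h (treeSpanner_mem_NP t), fun n G _ _ => treeSpanner_graphCode t G⟩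

end Pool.Agent.Results.MP_b5064f_lc.Classification
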